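import Pool.Agent.H30.GulD

set_option autoImplicit false

namespace Pool.Agent.Results.MP_aa78bc_gt.DenseMetr

open Pool.Agent.H30.Gul

theorem result :
    ∀ (X : Type) [TopologicalSpace X] [CompactSpace X] [T2Space X], SplitGulko X →
      ∃ D : Set X, Dense D ∧ TopologicalSpace.MetrizableSpace D :=
  fun _ _ _ _ h => h.qq.dense_metr

end Pool.Agent.Results.MP_aa78bc_gt.DenseMetr
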